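import Pool.Agent.Y601.SSE.Ac0

set_option autoImplicit false
set_option linter.unusedSectionVars false
set_option linter.unusedVariables false

/-!
Functions which have reductions of small depth to a gap constraint satisfaction problem have small
average sensitivity.
-/

namespace Pool.Agent.U47.AC

open Finset DomAC0 H568R2 Pool.Agent.TH163.AC3 Pool.Agent.Y601.SSE

section averaging

open scoped Classical

variable {I : Type} [Fintype I] [DecidableEq I]

/-- the weight of a fair bit -/
noncomputable def half : Bool → ℝ := fun _ => 1 / 2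

/-- the weight of a biased bit -/
noncomputable def bern (p : ℝ) : Bool → ℝ := fun z => if z = true then p else 1 - p

theorem half_sum : ∑ a, half a = 1 := by
  rw [Fintype.sum_bool]
  unfold half
  norm_num

theorem bern_sum (p : ℝ) : ∑ a, bern p a = 1 := by
  rw [Fintype.sum_bool]
  unfold bern
  simp

theorem half_nonneg (a : Bool) : 0 ≤ half a := by
  unfold half
  norm_num

theorem Ex_half (F : (I → Bool) → ℝ) : Ex half F = (∑ x, F x) / 2 ^ Fintype.card I := by
  unfold Ex half
  simp only [prod_const, card_univ]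
  rw [← mul_sum, one_div, inv_pow, inv_mul_eq_div]

theorem ex_bern {p : ℝ} (i : I) :
    Ex (bern p) (fun z : I → Bool => if z i = true then (1 : ℝ) else 0) = p := by
  rw [Ex_resample (bern_sum p) _ i]
  have h1 : (fun ω : I → Bool => ∑ a, bern p a *
      (if Function.update ω i a i = true then (1 : ℝ) else 0)) = fun _ => p := by
    funext ω
    rw [Fintype.sum_bool]
    simp [bern]
  rw [h1, Ex_const (bern_sum p)]

/-- the values on the stars and outside are a uniformly random input, which does not depend on the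
set of the stars -/
theorem avg {p : ℝ} (i : I) (F : (I → Bool) → ℝ) :
    Ex (wq p) (fun ρ : Restr I => Ex half (fun x =>
      (if ρ i = none then (1 : ℝ) else 0) * F (ov ρ x))) = p * Ex half F := by
  have h1 := Ex_prod (wq p) half (fun ω : I → Option Bool × Bool =>
    (if (ω i).1 = none then (1 : ℝ) else 0) * F (ov (fun j => (ω j).1) (fun j => (ω j).2)))
  rw [← h1]
  have h2 := Ex_push (I := I) (fun c : Option Bool × Bool => (c.1.getD c.2, decide (c.1 = none)))
    (fun c : Option Bool × Bool => wq p c.1 * half c.2)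
    (fun c : Bool × Bool => half c.1 * bern p c.2) (by
      rintro ⟨y, z⟩
      rw [Finset.sum_filter, Fintype.sum_prod_type, Fintype.sum_option, Fintype.sum_bool,
        Fintype.sum_bool, Fintype.sum_bool, Fintype.sum_bool]
      cases y <;> cases z <;> simp [wq, half, bern] <;> ring)
    (fun η : I → Bool × Bool => (if (η i).2 = true then (1 : ℝ) else 0) * F (fun j => (η j).1))
  have h3 : (fun ω : I → Option Bool × Bool =>
      (if (ω i).1 = none then (1 : ℝ) else 0) * F (ov (fun j => (ω j).1) (fun j => (ω j).2))) =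
      fun ω => (fun η : I → Bool × Bool =>
        (if (η i).2 = true then (1 : ℝ) else 0) * F (fun j => (η j).1))
        (fun j => ((ω j).1.getD (ω j).2, decide ((ω j).1 = none))) := by
    funext ω
    simp only [decide_eq_true_eq]
    rfl
  rw [h3, h2, Ex_prod half (bern p)]
  have h4 : (fun α : I → Bool => Ex (bern p) (fun β : I → Bool =>
      (if β i = true then (1 : ℝ) else 0) * F (fun j => α j))) = fun α => p * F α := by
    funext α
    have h5 : (fun β : I → Bool => (if β i = true then (1 : ℝ) else 0) * F (fun j => α j)) =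
        fun β => F α * (if β i = true then (1 : ℝ) else 0) := by
      funext β
      rw [mul_comm]
    rw [h5, Ex_smul, ex_bern, mul_comm]
  show Ex half (fun α : I → Bool => Ex (bern p) (fun β : I → Bool =>
      (if β i = true then (1 : ℝ) else 0) * F (fun j => α j))) = _
  rw [h4, Ex_smul]

end averaging

section core

open scoped Classical

variable {N : ℕ} {E K L : Type} [Fintype E]

/-- the pair of `x` and the input with the bit `i` flipped is sensitive -/
def Sens (W : Finset (Fin N → Bool)) (f : (Fin N → Bool) → Bool) (x : Fin N → Bool)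
    (i : Fin N) : Prop := x ∈ W ∧ Y601.SSE.flip i x ∈ W ∧ f x ≠ f (Y601.SSE.flip i x)

/-- games of high and of low value differ in many constraints -/
theorem differ {Sat : L → K → Prop} {c c' : E → K} {ε δ : ℝ}
    (hy : ∃ l, (1 - ε) * Fintype.card E ≤ ((univ.filter fun e => Sat l (c e)).card : ℝ))
    (hn : ∀ l, ((univ.filter fun e => Sat l (c' e)).card : ℝ) ≤ δ * Fintype.card E) :
    (1 - ε - δ) * Fintype.card E ≤ ((univ.filter fun e => c e ≠ c' e).card : ℝ) := by
  obtain ⟨l, hl⟩ := hy
  have h1 := hn l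
  have h2 : (univ.filter fun e => Sat l (c e)).card ≤ (univ.filter fun e => Sat l (c' e)).card +
      (univ.filter fun e => c e ≠ c' e).card := by
    refine le_trans (card_le_card ?_) (card_union_le _ _)
    intro e he
    simp only [mem_filter, mem_univ, true_and, mem_union] at he ⊢
    by_cases h : c e = c' e
    · left
      rw [← h]
      exact he
    · exact Or.inr h
  have h3 : ((univ.filter fun e => Sat l (c e)).card : ℝ) ≤
      (univ.filter fun e => Sat l (c' e)).card + (univ.filter fun e => c e ≠ c' e).card := by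
    exact_mod_cast h2
  nlinarith

/-- under a restriction that makes the gates shallow, few of the free variables are sensitive -/
theorem few {s h : ℕ} (C : Circuit (Fin N)) (hs : 1 ≤ s) {ρ : Restr (Fin N)}
    (hρ : Shallow C s h ρ) (out : E → K → Fin N ⊕ Fin C.size)
    (hh : ∀ e c, C.nodeDepth (out e c) ≤ h) (con : (Fin N → Bool) → E → K)
    (hcon : ∀ x e c, C.nodeVal x (out e c) = true ↔ con x e = c)
    (Sat : L → K → Prop) (ε δ : ℝ) (hE : 0 < Fintype.card E)
    (W : Finset (Fin N → Bool)) (f : (Fin N → Bool) → Bool)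
    (hyes : ∀ x ∈ W, f x = true → ∃ l,
      (1 - ε) * Fintype.card E ≤ ((univ.filter fun e => Sat l (con x e)).card : ℝ))
    (hno : ∀ x ∈ W, f x = false → ∀ l,
      ((univ.filter fun e => Sat l (con x e)).card : ℝ) ≤ δ * Fintype.card E)
    (x : Fin N → Bool) :
    (1 - ε - δ) * ((univ.filter fun i => ρ i = none ∧ Sens W f (ov ρ x) i).card : ℝ) ≤ s := by
  have hER : (0 : ℝ) < Fintype.card E := by exact_mod_cast hE
  obtain ⟨J, hJ⟩ : ∃ J : Finset (Fin N), J = univ.filter fun i =>
    ρ i = none ∧ Sens W f (ov ρ x) i := ⟨_, rfl⟩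
  rw [← hJ]
  have hdiff : ∀ i ∈ J, (1 - ε - δ) * Fintype.card E ≤
      ((univ.filter fun e => con (ov ρ x) e ≠ con (Y601.SSE.flip i (ov ρ x)) e).card : ℝ) := by
    intro i hi
    rw [hJ, mem_filter] at hi
    obtain ⟨-, h0, h1, h2, h3⟩ := hi
    cases hf : f (ov ρ x) with
    | true =>
      have hf' : f (Y601.SSE.flip i (ov ρ x)) = false := by
        cases h4 : f (Y601.SSE.flip i (ov ρ x))
        · rfl
        · rw [hf, h4] at h3; exact absurd rfl h3
      exact differ (hyes _ h1 hf) (hno _ h2 hf')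
    | false =>
      have hf' : f (Y601.SSE.flip i (ov ρ x)) = true := by
        cases h4 : f (Y601.SSE.flip i (ov ρ x))
        · rw [hf, h4] at h3; exact absurd rfl h3
        · rfl
      have h5 := differ (hyes _ h2 hf') (hno _ h1 hf)
      refine h5.trans ?_
      exact_mod_cast card_le_card fun e he => by
        rw [mem_filter] at he ⊢
        exact ⟨he.1, fun h6 => he.2 h6.symm⟩
  have hsum : (J.card : ℝ) * ((1 - ε - δ) * Fintype.card E) ≤
      ∑ i ∈ J, ((univ.filter fun e => con (ov ρ x) e ≠ con (Y601.SSE.flip i (ov ρ x)) e).card : ℝ) := by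
    rw [← nsmul_eq_mul]
    exact Finset.card_nsmul_le_sum _ _ _ hdiff
  have hcount : ∑ i ∈ J, (univ.filter fun e => con (ov ρ x) e ≠ con (Y601.SSE.flip i (ov ρ x)) e).card ≤
      Fintype.card E * s := by
    simp_rw [card_filter]
    rw [sum_comm]
    have h1 : ∀ e : E, ∑ i ∈ J, (if con (ov ρ x) e ≠ con (Y601.SSE.flip i (ov ρ x)) e then 1 else 0) ≤
        s := by
      intro e
      rw [← card_filter]
      have hdt := node_dt C hs hρ (out e (con (ov ρ x) e)) (hh e _)
      refine le_trans (card_le_card ?_) (sens_le hdt J x)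
      intro i hi
      rw [mem_filter] at hi ⊢
      refine ⟨hi.1, ?_⟩
      have hi0 : ρ i = none := by
        have := hi.1
        rw [hJ, mem_filter] at this
        exact this.2.1
      show C.nodeVal (ov ρ (Y601.SSE.flip i x)) _ ≠ C.nodeVal (ov ρ x) _
      rw [ov_flip ρ i hi0]
      have h2 : C.nodeVal (ov ρ x) (out e (con (ov ρ x) e)) = true := (hcon _ _ _).2 rfl
      rw [h2]
      intro h3
      exact hi.2 ((hcon _ _ _).1 h3).symm
    refine (sum_le_sum fun e _ => h1 e).trans ?_
    rw [sum_const, smul_eq_mul, card_univ]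
  have hcountR : ∑ i ∈ J, ((univ.filter fun e =>
      con (ov ρ x) e ≠ con (Y601.SSE.flip i (ov ρ x)) e).card : ℝ) ≤ Fintype.card E * s := by
    exact_mod_cast hcount
  have h6 : Fintype.card E * ((1 - ε - δ) * J.card) ≤ Fintype.card E * (s : ℝ) := by
    calc (Fintype.card E : ℝ) * ((1 - ε - δ) * J.card)
        = J.card * ((1 - ε - δ) * Fintype.card E) := by ring
      _ ≤ _ := hsum.trans hcountR
  exact le_of_mul_le_mul_left h6 hER

/-- the average sensitivity -/
noncomputable def avgSens (W : Finset (Fin N → Bool)) (f : (Fin N → Bool) → Bool) : ℝ :=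
  (∑ x, ((univ.filter fun i => Sens W f x i).card : ℝ)) / 2 ^ N

theorem core {s h : ℕ} (C : Circuit (Fin N)) (hs : 1 ≤ s)
    (hcond : h * (C.size * N) ≤ 2 ^ s) (out : E → K → Fin N ⊕ Fin C.size)
    (hh : ∀ e c, C.nodeDepth (out e c) ≤ h) (con : (Fin N → Bool) → E → K)
    (hcon : ∀ x e c, C.nodeVal x (out e c) = true ↔ con x e = c)
    (Sat : L → K → Prop) (ε δ : ℝ) (hε : 0 ≤ ε) (hδ : 0 ≤ δ) (hεδ : ε + δ < 1)
    (hE : 0 < Fintype.card E)
    (W : Finset (Fin N → Bool)) (f : (Fin N → Bool) → Bool)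
    (hyes : ∀ x ∈ W, f x = true → ∃ l,
      (1 - ε) * Fintype.card E ≤ ((univ.filter fun e => Sat l (con x e)).card : ℝ))
    (hno : ∀ x ∈ W, f x = false → ∀ l,
      ((univ.filter fun e => Sat l (con x e)).card : ℝ) ≤ δ * Fintype.card E) :
    (1 - ε - δ) * avgSens W f ≤ (24 * s) ^ (h + 1) := by
  have hs0 : (1 : ℝ) ≤ s := by exact_mod_cast hs
  obtain ⟨q, hq⟩ : ∃ q : ℝ, q = 1 / (24 * s) := ⟨_, rfl⟩
  have hq0 : 0 < q := by rw [hq]; positivity
  have hq1 : q ≤ 1 / 3 := by
    rw [hq, div_le_div_iff₀ (by positivity) (by norm_num)]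
    linarith
  have hbad := collapse' C hq0.le hq1 hs h
  have h1 : (12 * s * q : ℝ) = 1 / 2 := by rw [hq]; field_simp; norm_num
  rw [h1] at hbad
  have hqh : 0 < q ^ h := by positivity
  have hg : 0 ≤ 1 - ε - δ := by linarith
  have hg1 : 1 - ε - δ ≤ 1 := by linarith
  have hw : ∀ a, 0 ≤ wq (q ^ h) a :=
    wq_nonneg hqh.le (pow_le_one₀ hq0.le (by linarith))
  -- the weighted number of sensitive stars
  obtain ⟨T, hT⟩ : ∃ T : Restr (Fin N) → ℝ, T = fun ρ => Ex half (fun x =>
    ∑ i, (if ρ i = none then (1 : ℝ) else 0) * (if Sens W f (ov ρ x) i then (1 : ℝ) else 0)) :=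
    ⟨_, rfl⟩
  have hTcount : ∀ (ρ : Restr (Fin N)) (x : Fin N → Bool),
      ∑ i, (if ρ i = none then (1 : ℝ) else 0) * (if Sens W f (ov ρ x) i then (1 : ℝ) else 0) =
        ((univ.filter fun i => ρ i = none ∧ Sens W f (ov ρ x) i).card : ℝ) := by
    intro ρ x
    rw [card_filter]
    push_cast
    refine sum_congr rfl fun i _ => ?_
    by_cases h2 : ρ i = none <;> by_cases h3 : Sens W f (ov ρ x) i <;> simp [h2, h3]
  have hExT : Ex (wq (q ^ h)) T = q ^ h * avgSens W f := by
    rw [hT]
    have e1 : (fun ρ : Restr (Fin N) => Ex half (fun x => ∑ i, (if ρ i = none then (1 : ℝ) else 0) *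
        (if Sens W f (ov ρ x) i then (1 : ℝ) else 0))) =
        fun ρ => ∑ i, Ex half (fun x => (if ρ i = none then (1 : ℝ) else 0) *
          (if Sens W f (ov ρ x) i then (1 : ℝ) else 0)) := by
      funext ρ
      rw [Ex_sum univ half fun i x => (if ρ i = none then (1 : ℝ) else 0) *
          (if Sens W f (ov ρ x) i then (1 : ℝ) else 0)]
    rw [e1, Ex_sum univ (wq (q ^ h)) fun i (ρ : Restr (Fin N)) =>
      Ex half (fun x => (if ρ i = none then (1 : ℝ) else 0) *
          (if Sens W f (ov ρ x) i then (1 : ℝ) else 0))]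
    have e2 : ∀ i : Fin N, Ex (wq (q ^ h)) (fun ρ : Restr (Fin N) =>
        Ex half (fun x => (if ρ i = none then (1 : ℝ) else 0) *
          (if Sens W f (ov ρ x) i then (1 : ℝ) else 0))) =
        q ^ h * Ex half (fun x => if Sens W f x i then (1 : ℝ) else 0) :=
      fun i => avg i fun y => if Sens W f y i then (1 : ℝ) else 0
    rw [sum_congr rfl fun i _ => e2 i, ← mul_sum]
    congr 1
    rw [← Ex_sum univ half fun i x => if Sens W f x i then (1 : ℝ) else 0, Ex_half]
    unfold avgSens
    rw [Fintype.card_fin]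
    congr 1
    refine sum_congr rfl fun x _ => ?_
    rw [card_filter]
    push_cast
    rfl
  have hTle : ∀ ρ, (1 - ε - δ) * T ρ ≤ s + N * (if ¬ Shallow C s h ρ then (1 : ℝ) else 0) := by
    intro ρ
    rw [hT]
    show (1 - ε - δ) * Ex half (fun x => ∑ i, (if ρ i = none then (1 : ℝ) else 0) *
        (if Sens W f (ov ρ x) i then (1 : ℝ) else 0)) ≤ _
    rw [← Ex_smul]
    rw [← Ex_const (I := Fin N) half_sum
      ((s : ℝ) + N * (if ¬ Shallow C s h ρ then (1 : ℝ) else 0))]
    refine Ex_mono half_nonneg fun x => ?_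
    rw [hTcount]
    by_cases hS : Shallow C s h ρ
    · have := few C hs hS out hh con hcon Sat ε δ hE W f hyes hno x
      simp only [hS, not_true, if_false, mul_zero, add_zero]
      exact this
    · simp only [hS, not_false_iff, if_true, mul_one]
      have h2 : ((univ.filter fun i => ρ i = none ∧ Sens W f (ov ρ x) i).card : ℝ) ≤ N := by
        have := card_le_univ (univ.filter fun i => ρ i = none ∧ Sens W f (ov ρ x) i)
        rw [Fintype.card_fin] at this
        exact_mod_cast this
      have h3 : (0 : ℝ) ≤ ((univ.filter fun i => ρ i = none ∧ Sens W f (ov ρ x) i).card : ℝ) :=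
        Nat.cast_nonneg _
      nlinarith
  have hmain := Ex_mono hw hTle
  rw [Ex_smul, hExT, Ex_add (wq (q ^ h)) (fun _ : Restr (Fin N) => (s : ℝ))
    (fun ρ => (N : ℝ) * (if ¬ Shallow C s h ρ then (1 : ℝ) else 0)),
    Ex_const (wq_sum _), Ex_smul] at hmain
  have hN : (0 : ℝ) ≤ N := Nat.cast_nonneg _
  have hsmall : (N : ℝ) * Ex (wq (q ^ h)) (fun ρ : Restr (Fin N) =>
      if ¬ Shallow C s h ρ then (1 : ℝ) else 0) ≤ 1 / 2 := by
    refine (mul_le_mul_of_nonneg_left hbad hN).trans ?_
    have h3 : ((h * (C.size * N) : ℕ) : ℝ) ≤ ((2 ^ s : ℕ) : ℝ) := by exact_mod_cast hcond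
    push_cast at h3
    have h5 : ((1 : ℝ) / 2) ^ (s + 1) * 2 ^ s = 1 / 2 := by
      rw [pow_succ, mul_right_comm, ← mul_pow]
      norm_num
    calc (N : ℝ) * (h * C.size * (1 / 2) ^ (s + 1))
        = (1 / 2) ^ (s + 1) * (h * (C.size * N)) := by ring
      _ ≤ (1 / 2) ^ (s + 1) * 2 ^ s := mul_le_mul_of_nonneg_left h3 (by positivity)
      _ = 1 / 2 := h5
  have h4 : q ^ h * (24 * s) ^ h = 1 := by
    rw [← mul_pow, hq]
    have : (1 : ℝ) / (24 * s) * (24 * s) = 1 := by field_simp
    rw [this, one_pow]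
  have h5 : (1 - ε - δ) * (q ^ h * avgSens W f) ≤ s + 1 / 2 := by linarith
  have h6 : (0 : ℝ) < (24 * s) ^ h := by positivity
  calc (1 - ε - δ) * avgSens W f
      = (1 - ε - δ) * (q ^ h * avgSens W f) * (24 * s) ^ h := by
        rw [mul_assoc, mul_right_comm (q ^ h), h4, one_mul]
    _ ≤ (s + 1 / 2) * (24 * s) ^ h := mul_le_mul_of_nonneg_right h5 h6.le
    _ ≤ (24 * s) * (24 * s) ^ h := by
        apply mul_le_mul_of_nonneg_right _ h6.le
        linarith
    _ = (24 * s) ^ (h + 1) := by rw [pow_succ]; ring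

end core

section main

open scoped Classical

/-- reductions of small depth to a gap problem: the bound for the average sensitivity -/
theorem main (h : ℕ) : ∃ X0 : ℝ, 0 < X0 ∧ ∀ {N : ℕ} (C : Circuit (Fin N)) {E K L : Type}
    [Fintype E] (con : (Fin N → Bool) → E → K) (out : E → K → Fin N ⊕ Fin C.size)
    (Sat : L → K → Prop) (ε δ : ℝ) (W : Finset (Fin N → Bool)) (f : (Fin N → Bool) → Bool),
    0 < Fintype.card E → (∀ e c, C.nodeDepth (out e c) ≤ h) →
    (∀ x e c, C.nodeVal x (out e c) = true ↔ con x e = c) →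
    0 ≤ ε → 0 ≤ δ → ε + δ < 1 →
    (∀ x ∈ W, f x = true → ∃ l,
      (1 - ε) * Fintype.card E ≤ ((univ.filter fun e => Sat l (con x e)).card : ℝ)) →
    (∀ x ∈ W, f x = false → ∀ l,
      ((univ.filter fun e => Sat l (con x e)).card : ℝ) ≤ δ * Fintype.card E) →
    X0 ≤ (1 - ε - δ) * avgSens W f →
    (2 : ℝ) ^ (((1 - ε - δ) * avgSens W f) ^ (1 / (h + 1 : ℝ)) / 100) ≤ C.size * N := by
  obtain ⟨Y0, hY48, hY0⟩ := exists_large h
  refine ⟨Y0 ^ (h + 1), by positivity, ?_⟩
  intro N C E K L _ con out Sat ε δ W f hE hh hcon hε hδ hεδ hyes hno hX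
  obtain ⟨X, hXd⟩ : ∃ X : ℝ, X = (1 - ε - δ) * avgSens W f := ⟨_, rfl⟩
  rw [← hXd] at hX ⊢
  obtain ⟨Y, hYd⟩ : ∃ Y : ℝ, Y = X ^ (1 / (h + 1 : ℝ)) := ⟨_, rfl⟩
  rw [← hYd]
  have hY00 : (0 : ℝ) ≤ Y0 := by linarith
  have hXpos : 0 ≤ X := le_trans (by positivity) hX
  have hYX : Y ^ (h + 1) = X := by
    rw [hYd, ← Real.rpow_natCast, ← Real.rpow_mul hXpos]
    push_cast
    rw [one_div, inv_mul_cancel₀ (by positivity), Real.rpow_one]
  have hYn : 0 ≤ Y := by rw [hYd]; exact Real.rpow_nonneg hXpos _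
  have hYY : Y0 ≤ Y := by
    by_contra hcon
    push Not at hcon
    have := pow_lt_pow_left₀ hcon hYn (Nat.succ_ne_zero h)
    rw [Nat.succ_eq_add_one, hYX] at this
    linarith
  have hY := hY0 Y hYY
  by_contra hlt0
  push Not at hlt0
  obtain ⟨s, hs⟩ : ∃ s : ℕ, s = ⌈Y / 24⌉₊ - 1 := ⟨_, rfl⟩
  have hc1 : Y / 24 ≤ ⌈Y / 24⌉₊ := Nat.le_ceil _
  have hc2 : (⌈Y / 24⌉₊ : ℝ) < Y / 24 + 1 := Nat.ceil_lt_add_one (by positivity)
  have hc3 : 2 ≤ ⌈Y / 24⌉₊ := by
    have : (2 : ℝ) ≤ ⌈Y / 24⌉₊ := le_trans (by linarith) hc1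
    exact_mod_cast this
  have hs1 : 1 ≤ s := by omega
  have hsr : (s : ℝ) = ⌈Y / 24⌉₊ - 1 := by
    rw [hs, Nat.cast_sub (by omega), Nat.cast_one]
  have hs2 : 24 * (s : ℝ) < Y := by rw [hsr]; linarith
  have hs3 : Y / 24 - 1 ≤ s := by rw [hsr]; linarith
  have hlt : (24 * (s : ℝ)) ^ (h + 1) < X := by
    rw [← hYX]
    exact pow_lt_pow_left₀ hs2 (by positivity) (Nat.succ_ne_zero h)
  have hcond : h * (C.size * N) ≤ 2 ^ s := by
    have h1 : ((h * (C.size * N) : ℕ) : ℝ) ≤ ((2 ^ s : ℕ) : ℝ) := by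
      push_cast
      calc (h : ℝ) * (C.size * N) ≤ h * 2 ^ (Y / 100) :=
            mul_le_mul_of_nonneg_left hlt0.le (Nat.cast_nonneg _)
        _ ≤ h * Y ^ h * 2 ^ (Y / 100) := by
            apply mul_le_mul_of_nonneg_right _ (by positivity)
            exact le_mul_of_one_le_right (Nat.cast_nonneg _) (one_le_pow₀ (by linarith))
        _ ≤ 2 ^ (Y / 24 - 1) := hY
        _ ≤ (2 : ℝ) ^ (s : ℝ) := Real.rpow_le_rpow_of_exponent_le (by norm_num) hs3
        _ = 2 ^ s := Real.rpow_natCast _ _
    exact_mod_cast h1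
  have hcore := core C hs1 hcond out hh con hcon Sat ε δ hε hδ hεδ hE W f hyes hno
  rw [← hXd] at hcore
  linarith

/-- flipping a bit in `P` changes the parity of the number of ones in `P` -/
theorem odd_flip_on {N : ℕ} (P : Finset (Fin N)) (i : Fin N) (hi : i ∈ P) (x : Fin N → Bool) :
    Odd (P.filter fun j => Y601.SSE.flip i x j = true).card ↔
      ¬ Odd (P.filter fun j => x j = true).card := by
  have h1 : ∀ y : Fin N → Bool, (P.filter fun j => y j = true).card =
      (if y i = true then 1 else 0) + ∑ j ∈ P.erase i, if y j = true then 1 else 0 := by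
    intro y
    rw [card_filter, Finset.add_sum_erase P (fun j => if y j = true then 1 else 0) hi]
  have h2 : ∑ j ∈ P.erase i, (if Y601.SSE.flip i x j = true then 1 else 0) =
      ∑ j ∈ P.erase i, if x j = true then 1 else 0 := by
    refine sum_congr rfl fun j hj => ?_
    rw [mem_erase] at hj
    unfold Y601.SSE.flip
    rw [Function.update_of_ne hj.1]
  rw [h1 (Y601.SSE.flip i x), h1 x, h2]
  have h3 : Y601.SSE.flip i x i = !(x i) := by unfold Y601.SSE.flip; simp
  rw [h3]
  obtain ⟨t, ht⟩ : ∃ t : ℕ, t = ∑ j ∈ P.erase i, if x j = true then 1 else 0 := ⟨_, rfl⟩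
  rw [← ht]
  cases x i
  · show Odd (1 + t) ↔ ¬ Odd (0 + t)
    rw [zero_add, add_comm, Nat.odd_add_one]
  · show Odd (0 + t) ↔ ¬ Odd (1 + t)
    rw [zero_add, add_comm, Nat.odd_add_one, not_not]

/-- the average sensitivity of the parity of the bits in `P`, outside an exceptional set -/
theorem parity_sens {N : ℕ} (P : Finset (Fin N)) (W : Finset (Fin N → Bool))
    (f : (Fin N → Bool) → Bool) (γ : ℝ)
    (hW : ((univ.filter fun x => x ∉ W).card : ℝ) ≤ γ * 2 ^ N)
    (hf : ∀ x ∈ W, f x = true ↔ ¬ Odd (P.filter fun i => x i = true).card) :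
    (1 - 2 * γ) * P.card ≤ avgSens W f := by
  have hpow : (0 : ℝ) < 2 ^ N := by positivity
  unfold avgSens
  rw [le_div_iff₀ hpow]
  -- all pairs but those that touch the exceptional set
  have h1 : ∀ x : Fin N → Bool, (P.card : ℝ) ≤ ((univ.filter fun i => Sens W f x i).card : ℝ) +
      (∑ i ∈ P, ((if x ∉ W then (1 : ℝ) else 0) +
        (if Y601.SSE.flip i x ∉ W then (1 : ℝ) else 0))) := by
    intro x
    have h2 : ∑ i ∈ P, (if Sens W f x i then (1 : ℝ) else 0) ≤
        ((univ.filter fun i => Sens W f x i).card : ℝ) := by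
      rw [← Finset.sum_filter, Finset.sum_const, nsmul_eq_mul, mul_one]
      exact_mod_cast card_le_card (filter_subset_filter _ (subset_univ P))
    refine le_trans ?_ (add_le_add_left h2 _)
    rw [← sum_add_distrib]
    have h3 : (P.card : ℝ) = ∑ _i ∈ P, (1 : ℝ) := by simp
    rw [h3]
    refine sum_le_sum fun i hi => ?_
    by_cases hx : x ∈ W
    · by_cases hy : Y601.SSE.flip i x ∈ W
      · have hS : Sens W f x i := by
          refine ⟨hx, hy, fun he => ?_⟩
          have e1 := hf x hx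
          have e2 := hf _ hy
          rw [odd_flip_on P i hi, not_not] at e2
          rw [he] at e1
          have e3 := e1.symm.trans e2
          tauto
        simp [hS, hx, hy]
      · rw [if_pos hy]
        split_ifs <;> norm_num
    · rw [if_pos hx]
      split_ifs <;> norm_num
  have h2 := sum_le_sum fun x (_ : x ∈ (univ : Finset (Fin N → Bool))) => h1 x
  rw [sum_const, card_univ, Fintype.card_fun, Fintype.card_bool, Fintype.card_fin, nsmul_eq_mul,
    sum_add_distrib] at h2
  have h3 : ∑ x : Fin N → Bool, ∑ i ∈ P,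
      ((if x ∉ W then (1 : ℝ) else 0) + (if Y601.SSE.flip i x ∉ W then (1 : ℝ) else 0)) =
      2 * P.card * ((univ.filter fun x => x ∉ W).card : ℝ) := by
    rw [sum_comm]
    have h4 : ∀ i ∈ P, ∑ x : Fin N → Bool,
        ((if x ∉ W then (1 : ℝ) else 0) + (if Y601.SSE.flip i x ∉ W then (1 : ℝ) else 0)) =
        2 * ((univ.filter fun x => x ∉ W).card : ℝ) := by
      intro i _
      rw [sum_add_distrib]
      have h5 : ∑ x : Fin N → Bool, (if Y601.SSE.flip i x ∉ W then (1 : ℝ) else 0) =
          ∑ x : Fin N → Bool, (if x ∉ W then (1 : ℝ) else 0) :=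
        Fintype.sum_equiv ⟨Y601.SSE.flip i, Y601.SSE.flip i, flip_flip i, flip_flip i⟩ _ _
          fun x => rfl
      rw [h5, card_filter]
      push_cast
      ring
    rw [sum_congr rfl h4, sum_const, nsmul_eq_mul]
    ring
  rw [h3] at h2
  push_cast at h2
  have hN : (0 : ℝ) ≤ 2 * P.card := by positivity
  have h5 := mul_le_mul_of_nonneg_left hW hN
  nlinarith

end main

end Pool.Agent.U47.AC
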